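import Mathlib

/-!
# MP_adcce9_an, Q1 and Q2: no isometric copies of `ℓ₁ ⊕₀ ℓ₁` and `c₀ ⊕₁ c₀`

For every `f : ℕ → ℚ` (in particular every bijection) the Sierpiński space `X_f`
contains no isometric copy of `ℓ₁ ⊕₀ ℓ₁` and no isometric copy of `c₀ ⊕₁ c₀`. In fact every
linear embedding of either of these spaces into `X_f` has distortion at least `4/3`.
-/

namespace Pool.Agent.Results.MP_adcce9_an.NoIsometricCopies

open Filter Topology
open scoped ZeroAtInfty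

/-- The finite cliques: the finite sets on which `f` is increasing. -/
def Clique (f : ℕ → ℚ) (C : Finset ℕ) : Prop := ∀ m ∈ C, ∀ n ∈ C, m < n → f m < f n

/-- `c₀₀(ℕ)` over the scalar field `𝕜` (the real or the complex numbers), which is to carry the
norm of the Sierpiński space of `f`. -/
def C00 (𝕜 : Type) [RCLike 𝕜] (_f : ℕ → ℚ) : Type := ℕ →₀ 𝕜

variable {𝕜 : Type} [RCLike 𝕜]

noncomputable instance (f : ℕ → ℚ) : AddCommGroup (C00 𝕜 f) := @Finsupp.instAddCommGroup ℕ 𝕜 _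

noncomputable instance (f : ℕ → ℚ) : Module 𝕜 (C00 𝕜 f) := @Finsupp.module ℕ 𝕜 𝕜 _ _ _

/-- The coordinates of an element of `c₀₀(ℕ)`. -/
def coord {f : ℕ → ℚ} (x : C00 𝕜 f) (i : ℕ) : 𝕜 := (show ℕ →₀ 𝕜 from x) i

/-- `‖x‖ = sup { ∑_{i ∈ C} |x i| : C a finite clique }`. -/
noncomputable instance (f : ℕ → ℚ) : Norm (C00 𝕜 f) :=
  ⟨fun x => ⨆ C : {C : Finset ℕ // Clique f C}, ∑ i ∈ C.1, ‖coord x i‖⟩

section norm

variable {f : ℕ → ℚ}

lemma norm_def (x : C00 𝕜 f) : ‖x‖ = ⨆ C : {C : Finset ℕ // Clique f C}, ∑ i ∈ C.1, ‖coord x i‖ :=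
  rfl

@[simp] lemma coord_add (x y : C00 𝕜 f) (i : ℕ) : coord (x + y) i = coord x i + coord y i := rfl
@[simp] lemma coord_sub (x y : C00 𝕜 f) (i : ℕ) : coord (x - y) i = coord x i - coord y i := rfl
@[simp] lemma coord_smul (c : 𝕜) (x : C00 𝕜 f) (i : ℕ) : coord (c • x) i = c * coord x i := rfl
@[simp] lemma coord_zero (i : ℕ) : coord (0 : C00 𝕜 f) i = 0 := rfl

lemma clique_empty : Clique f ∅ := by intro m hm; simp at hm

instance : Nonempty {C : Finset ℕ // Clique f C} := ⟨⟨∅, clique_empty⟩⟩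

/-- the support as a finite set -/
def supp (x : C00 𝕜 f) : Finset ℕ := (show ℕ →₀ 𝕜 from x).support

lemma coord_eq_zero {x : C00 𝕜 f} {i : ℕ} (hi : i ∉ supp x) : coord x i = 0 :=
  Finsupp.notMem_support_iff.mp hi

lemma sum_le_supp (x : C00 𝕜 f) (C : Finset ℕ) :
    ∑ i ∈ C, ‖coord x i‖ ≤ ∑ i ∈ supp x, ‖coord x i‖ := by
  classical
  have h1 : ∑ i ∈ C, ‖coord x i‖ = ∑ i ∈ C ∩ supp x, ‖coord x i‖ := by
    symm
    apply Finset.sum_subset Finset.inter_subset_left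
    intro i hi hi'
    have : i ∉ supp x := fun h => hi' (Finset.mem_inter.mpr ⟨hi, h⟩)
    rw [coord_eq_zero this, norm_zero]
  rw [h1]
  exact Finset.sum_le_sum_of_subset_of_nonneg Finset.inter_subset_right fun i _ _ => norm_nonneg _

lemma bdd (x : C00 𝕜 f) :
    BddAbove (Set.range fun C : {C : Finset ℕ // Clique f C} => ∑ i ∈ C.1, ‖coord x i‖) := by
  refine ⟨∑ i ∈ supp x, ‖coord x i‖, ?_⟩
  rintro _ ⟨C, rfl⟩
  exact sum_le_supp x C.1

lemma sum_le_norm (x : C00 𝕜 f) {C : Finset ℕ} (hC : Clique f C) : ∑ i ∈ C, ‖coord x i‖ ≤ ‖x‖ :=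
  le_ciSup (bdd x) (⟨C, hC⟩ : {C : Finset ℕ // Clique f C})

lemma norm_le' {x : C00 𝕜 f} {r : ℝ} (h : ∀ C : Finset ℕ, Clique f C → ∑ i ∈ C, ‖coord x i‖ ≤ r) :
    ‖x‖ ≤ r := ciSup_le fun C => h C.1 C.2

lemma exists_lt_sum {x : C00 𝕜 f} {r : ℝ} (h : r < ‖x‖) :
    ∃ C : Finset ℕ, Clique f C ∧ r < ∑ i ∈ C, ‖coord x i‖ := by
  obtain ⟨C, hC⟩ := exists_lt_of_lt_ciSup h
  exact ⟨C.1, C.2, hC⟩

lemma clique_singleton (i : ℕ) : Clique f {i} := by
  intro m hm n hn h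
  rw [Finset.mem_singleton] at hm hn
  omega

lemma abs_coord_le (x : C00 𝕜 f) (i : ℕ) : ‖coord x i‖ ≤ ‖x‖ := by
  have := sum_le_norm x (clique_singleton (f := f) i)
  simpa using this

lemma core : NormedSpace.Core 𝕜 (C00 𝕜 f) where
  norm_nonneg x := le_trans (norm_nonneg (coord x 0)) (abs_coord_le x 0)
  norm_smul c x := by
    have h1 : ∀ (c : 𝕜) (x : C00 𝕜 f), ‖c • x‖ ≤ ‖c‖ * ‖x‖ := by
      intro c x
      apply norm_le'
      intro C hC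
      have : ∑ i ∈ C, ‖coord (c • x) i‖ = ‖c‖ * ∑ i ∈ C, ‖coord x i‖ := by
        rw [Finset.mul_sum]
        exact Finset.sum_congr rfl fun i _ => by rw [coord_smul, norm_mul]
      rw [this]
      exact mul_le_mul_of_nonneg_left (sum_le_norm x hC) (norm_nonneg _)
    refine le_antisymm (h1 c x) ?_
    rcases eq_or_ne c 0 with rfl | hc
    · simp only [norm_zero, zero_mul]
      exact le_trans (norm_nonneg (coord ((0 : 𝕜) • x) 0)) (abs_coord_le ((0 : 𝕜) • x) 0)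
    · have h2 := h1 c⁻¹ (c • x)
      rw [smul_smul, inv_mul_cancel₀ hc, one_smul, norm_inv] at h2
      have h3 : 0 < ‖c‖ := norm_pos_iff.mpr hc
      calc ‖c‖ * ‖x‖ ≤ ‖c‖ * (‖c‖⁻¹ * ‖c • x‖) := mul_le_mul_of_nonneg_left h2 h3.le
        _ = ‖c • x‖ := by field_simp
  norm_triangle x y := by
    apply norm_le'
    intro C hC
    calc ∑ i ∈ C, ‖coord (x + y) i‖ ≤ ∑ i ∈ C, (‖coord x i‖ + ‖coord y i‖) :=
          Finset.sum_le_sum fun i _ => by rw [coord_add]; exact norm_add_le _ _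
      _ = ∑ i ∈ C, ‖coord x i‖ + ∑ i ∈ C, ‖coord y i‖ := Finset.sum_add_distrib
      _ ≤ ‖x‖ + ‖y‖ := add_le_add (sum_le_norm x hC) (sum_le_norm y hC)
  norm_eq_zero_iff x := by
    constructor
    · intro h
      have h1 : ∀ i, coord x i = 0 := by
        intro i
        have := abs_coord_le x i
        rw [h] at this
        exact norm_le_zero_iff.mp this
      exact Finsupp.ext h1
    · rintro rfl
      refine le_antisymm (norm_le' fun C _ => by simp) ?_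
      exact le_trans (norm_nonneg (coord (0 : C00 𝕜 f) 0)) (abs_coord_le (0 : C00 𝕜 f) 0)

end norm

noncomputable instance (f : ℕ → ℚ) : NormedAddCommGroup (C00 𝕜 f) := NormedAddCommGroup.ofCore core

noncomputable instance (f : ℕ → ℚ) : NormedSpace 𝕜 (C00 𝕜 f) := NormedSpace.ofCore core

/-- The Sierpiński space `X_f`: the completion of `c₀₀(ℕ)`. -/
abbrev XSpace (𝕜 : Type) [RCLike 𝕜] (f : ℕ → ℚ) : Type := UniformSpace.Completion (C00 𝕜 f)

section proof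

variable {f : ℕ → ℚ}

/-- The combinatorial heart: two levels. -/
lemma two_level {N : ℕ} {A₁ B₁ A₂ B₂ : C00 𝕜 f}
    (hA₁ : ∀ i, N ≤ i → coord A₁ i = 0) (hB₁ : ∀ i, N ≤ i → coord B₁ i = 0)
    (hA₂ : ∀ i, i < N → coord A₂ i = 0) (hB₂ : ∀ i, i < N → coord B₂ i = 0)
    {r D : ℝ} (h1 : r < ‖A₁ + A₂‖) (h2 : r < ‖B₁ + B₂‖)
    (h3 : ‖A₁ + B₂‖ ≤ D) (h4 : ‖B₁ + A₂‖ ≤ D)
    (h5 : ‖A₁‖ ≤ D) (h6 : ‖B₁‖ ≤ D) (h7 : ‖A₂‖ ≤ D) (h8 : ‖B₂‖ ≤ D) :
    2 * r ≤ 3 * D := by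
  classical
  obtain ⟨C, hC, hCr⟩ := exists_lt_sum h1
  obtain ⟨E, hE, hEr⟩ := exists_lt_sum h2
  -- splitting
  have split : ∀ (C : Finset ℕ) (P Q : C00 𝕜 f), (∀ i, N ≤ i → coord P i = 0) →
      (∀ i, i < N → coord Q i = 0) → ∑ i ∈ C, ‖coord (P + Q) i‖ =
      ∑ i ∈ C.filter (· < N), ‖coord P i‖ + ∑ i ∈ C.filter (fun i => ¬ i < N), ‖coord Q i‖ := by
    intro C P Q hP hQ
    rw [← Finset.sum_filter_add_sum_filter_not C (· < N)]
    congr 1
    · apply Finset.sum_congr rfl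
      intro i hi
      rw [Finset.mem_filter] at hi
      rw [coord_add, hQ i hi.2, add_zero]
    · apply Finset.sum_congr rfl
      intro i hi
      rw [Finset.mem_filter] at hi
      rw [coord_add, hP i (not_lt.mp hi.2), zero_add]
  rw [split C A₁ A₂ hA₁ hA₂] at hCr
  rw [split E B₁ B₂ hB₁ hB₂] at hEr
  set C₁ := C.filter (· < N) with hC₁
  set C₂ := C.filter (fun i => ¬ i < N) with hC₂
  set E₁ := E.filter (· < N) with hE₁
  set E₂ := E.filter (fun i => ¬ i < N) with hE₂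
  have sub : ∀ {C C' : Finset ℕ}, C' ⊆ C → Clique f C → Clique f C' :=
    fun h hc m hm n hn => hc m (h hm) n (h hn)
  have cC₁ : Clique f C₁ := sub (Finset.filter_subset _ _) hC
  have cC₂ : Clique f C₂ := sub (Finset.filter_subset _ _) hC
  have cE₁ : Clique f E₁ := sub (Finset.filter_subset _ _) hE
  have cE₂ : Clique f E₂ := sub (Finset.filter_subset _ _) hE
  have lC₁ : ∀ i ∈ C₁, i < N := fun i hi => (Finset.mem_filter.mp hi).2
  have lE₁ : ∀ i ∈ E₁, i < N := fun i hi => (Finset.mem_filter.mp hi).2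
  have lC₂ : ∀ i ∈ C₂, N ≤ i := fun i hi => not_lt.mp (Finset.mem_filter.mp hi).2
  have lE₂ : ∀ i ∈ E₂, N ≤ i := fun i hi => not_lt.mp (Finset.mem_filter.mp hi).2
  have mC : ∀ i ∈ C₁, ∀ j ∈ C₂, f i < f j := fun i hi j hj =>
    hC i (Finset.mem_filter.mp hi).1 j (Finset.mem_filter.mp hj).1
      (lt_of_lt_of_le (lC₁ i hi) (lC₂ j hj))
  have mE : ∀ i ∈ E₁, ∀ j ∈ E₂, f i < f j := fun i hi j hj =>
    hE i (Finset.mem_filter.mp hi).1 j (Finset.mem_filter.mp hj).1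
      (lt_of_lt_of_le (lE₁ i hi) (lE₂ j hj))
  -- gluing
  have glue : ∀ (F G : Finset ℕ), Clique f F → Clique f G → (∀ i ∈ F, i < N) →
      (∀ i ∈ G, N ≤ i) → (∀ i ∈ F, ∀ j ∈ G, f i < f j) → ∀ (P Q : C00 𝕜 f),
      (∀ i, N ≤ i → coord P i = 0) → (∀ i, i < N → coord Q i = 0) →
      ∑ i ∈ F, ‖coord P i‖ + ∑ i ∈ G, ‖coord Q i‖ ≤ ‖P + Q‖ := by
    intro F G hF hG lF lG hFG P Q hP hQ
    have hFG' : Clique f (F ∪ G) := by
      intro m hm n hn hmn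
      rw [Finset.mem_union] at hm hn
      rcases hm with hm | hm <;> rcases hn with hn | hn
      · exact hF m hm n hn hmn
      · exact hFG m hm n hn
      · have := lG m hm; have := lF n hn; omega
      · exact hG m hm n hn hmn
    have h := sum_le_norm (P + Q) hFG'
    rw [split _ P Q hP hQ] at h
    have e1 : (F ∪ G).filter (· < N) = F := by
      ext i
      simp only [Finset.mem_filter, Finset.mem_union]
      constructor
      · rintro ⟨h | h, h'⟩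
        · exact h
        · have := lG i h; omega
      · exact fun h => ⟨Or.inl h, lF i h⟩
    have e2 : (F ∪ G).filter (fun i => ¬ i < N) = G := by
      ext i
      simp only [Finset.mem_filter, Finset.mem_union]
      constructor
      · rintro ⟨h | h, h'⟩
        · exact absurd (lF i h) h'
        · exact h
      · exact fun h => ⟨Or.inr h, not_lt.mpr (lG i h)⟩
    rwa [e1, e2] at h
  have n1 := sum_le_norm A₁ cC₁
  have n2 := sum_le_norm A₂ cC₂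
  have n3 := sum_le_norm B₁ cE₁
  have n4 := sum_le_norm B₂ cE₂
  -- compare the top values of `f` on `C₁` and `E₁`
  by_cases hcase : ∀ i ∈ C₁, ∀ j ∈ E₂, f i < f j
  · have := glue C₁ E₂ cC₁ cE₂ lC₁ lE₂ hcase A₁ B₂ hA₁ hB₂
    linarith
  · push Not at hcase
    obtain ⟨i, hi, j, hj, hij⟩ := hcase
    have hcase' : ∀ k ∈ E₁, ∀ l ∈ C₂, f k < f l := fun k hk l hl =>
      (mE k hk j hj).trans_le (hij.trans (mC i hi l hl).le)
    have := glue E₁ C₂ cE₁ cC₂ lE₁ lC₂ hcase' B₁ A₂ hB₁ hA₂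
    linarith

/-- the part of `y` living on `[N, ∞)` -/
noncomputable def tail (N : ℕ) (y : C00 𝕜 f) : C00 𝕜 f :=
  (show ℕ →₀ 𝕜 from y).filter (fun i => ¬ i < N)

lemma coord_tail_lt {N i : ℕ} (y : C00 𝕜 f) (h : i < N) : coord (tail N y) i = 0 :=
  Finsupp.filter_apply_neg (fun i => ¬ i < N) _ (not_not.mpr h)

lemma coord_tail_ge {N i : ℕ} (y : C00 𝕜 f) (h : N ≤ i) : coord (tail N y) i = coord y i :=
  Finsupp.filter_apply_pos (fun i => ¬ i < N) _ (not_lt.mpr h)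

lemma norm_sub_tail (N : ℕ) (y : C00 𝕜 f) : ‖y - tail N y‖ ≤ ∑ i ∈ Finset.range N, ‖coord y i‖ := by
  classical
  apply norm_le'
  intro C _
  rw [← Finset.sum_filter_add_sum_filter_not C (· < N)]
  have h1 : ∑ i ∈ C.filter (fun i => ¬ i < N), ‖coord (y - tail N y) i‖ = 0 := by
    apply Finset.sum_eq_zero
    intro i hi
    rw [Finset.mem_filter] at hi
    rw [coord_sub, coord_tail_ge y (not_lt.mp hi.2), sub_self, norm_zero]
  rw [h1, add_zero]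
  have h2 : ∑ i ∈ C.filter (· < N), ‖coord (y - tail N y) i‖ =
      ∑ i ∈ C.filter (· < N), ‖coord y i‖ := by
    apply Finset.sum_congr rfl
    intro i hi
    rw [Finset.mem_filter] at hi
    rw [coord_sub, coord_tail_lt y hi.2, sub_zero]
  rw [h2]
  apply Finset.sum_le_sum_of_subset_of_nonneg
  · intro i hi
    rw [Finset.mem_filter] at hi
    exact Finset.mem_range.mpr hi.2
  · exact fun i _ _ => norm_nonneg _

lemma exists_approx (x : XSpace 𝕜 f) {δ : ℝ} (hδ : 0 < δ) : ∃ y : C00 𝕜 f, ‖x - y‖ < δ := by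
  obtain ⟨y, hy⟩ := (UniformSpace.Completion.denseRange_coe (α := C00 𝕜 f)).exists_dist_lt x hδ
  exact ⟨y, by rwa [← dist_eq_norm]⟩

/-- A bounded sequence has differences with small head. -/
lemma small_head {x : ℕ → XSpace 𝕜 f} {B : ℝ} (hB : ∀ n, ‖x n‖ ≤ B) (N : ℕ) {δ : ℝ} (hδ : 0 < δ) :
    ∃ n m, n < m ∧ ∃ y : C00 𝕜 f, (∀ i, i < N → coord y i = 0) ∧ ‖x n - x m - y‖ < δ := by
  have h4 : 0 < δ / 4 := by linarith
  choose z hz using fun n => exists_approx (x n) h4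
  have hzn : ∀ n, ‖z n‖ ≤ B + δ / 4 := by
    intro n
    rw [← UniformSpace.Completion.norm_coe (z n)]
    have h1 : ((z n : C00 𝕜 f) : XSpace 𝕜 f) = x n - (x n - z n) := by abel
    rw [h1]
    refine (norm_sub_le _ _).trans (add_le_add (hB n) (hz n).le)
  let h : ℕ → Fin N → 𝕜 := fun n i => coord (z n) i
  have hh : ∀ n, h n ∈ Metric.closedBall (0 : Fin N → 𝕜) (B + δ / 4) := by
    intro n
    rw [mem_closedBall_zero_iff]
    have h0 : 0 ≤ B + δ / 4 := (norm_nonneg _).trans (hzn n)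
    rw [pi_norm_le_iff_of_nonneg h0]
    intro i
    exact (abs_coord_le (z n) i).trans (hzn n)
  obtain ⟨a, -, φ, hφ, hlim⟩ := tendsto_subseq_of_bounded Metric.isBounded_closedBall hh
  have hN : (0 : ℝ) < (N : ℝ) + 1 := by positivity
  have hη : 0 < δ / (8 * ((N : ℝ) + 1)) := by positivity
  rw [Metric.tendsto_atTop] at hlim
  obtain ⟨K, hK⟩ := hlim _ hη
  have hd : ∀ i, i < N → ‖coord (z (φ K) - z (φ (K + 1))) i‖ ≤ δ / (4 * ((N : ℝ) + 1)) := by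
    intro i hi
    have h1 := hK K le_rfl
    have h2 := hK (K + 1) (by omega)
    have h3 : dist (h (φ K) ⟨i, hi⟩) (h (φ (K + 1)) ⟨i, hi⟩) ≤
        dist (h (φ K)) (h (φ (K + 1))) := dist_le_pi_dist _ _ _
    have h4 := dist_triangle_right (h (φ K)) (h (φ (K + 1))) a
    have h5 : δ / (4 * ((N : ℝ) + 1)) = δ / (8 * ((N : ℝ) + 1)) + δ / (8 * ((N : ℝ) + 1)) := by
      field_simp; ring
    rw [coord_sub, ← dist_eq_norm]
    simp only [Function.comp] at h1 h2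
    calc dist (coord (z (φ K)) i) (coord (z (φ (K + 1))) i) ≤ dist (h (φ K)) (h (φ (K + 1))) := h3
      _ ≤ _ := by rw [h5]; linarith
  refine ⟨φ K, φ (K + 1), hφ (by omega), tail N (z (φ K) - z (φ (K + 1))),
    fun i hi => coord_tail_lt _ hi, ?_⟩
  have hsum : ∑ i ∈ Finset.range N, ‖coord (z (φ K) - z (φ (K + 1))) i‖ ≤ δ / 4 := by
    calc ∑ i ∈ Finset.range N, ‖coord (z (φ K) - z (φ (K + 1))) i‖
        ≤ ∑ i ∈ Finset.range N, δ / (4 * ((N : ℝ) + 1)) :=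
          Finset.sum_le_sum fun i hi => hd i (Finset.mem_range.mp hi)
      _ = N * (δ / (4 * ((N : ℝ) + 1))) := by simp
      _ ≤ ((N : ℝ) + 1) * (δ / (4 * ((N : ℝ) + 1))) := by
          apply mul_le_mul_of_nonneg_right (by linarith) (by positivity)
      _ = δ / 4 := by field_simp
  have hnt := (norm_sub_tail N (z (φ K) - z (φ (K + 1)))).trans hsum
  rw [← UniformSpace.Completion.norm_coe] at hnt
  have e : x (φ K) - x (φ (K + 1)) -
      ((tail N (z (φ K) - z (φ (K + 1))) : C00 𝕜 f) : XSpace 𝕜 f) =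
      (x (φ K) - z (φ K)) - (x (φ (K + 1)) - z (φ (K + 1))) +
      ((z (φ K) - z (φ (K + 1)) - tail N (z (φ K) - z (φ (K + 1))) : C00 𝕜 f) : XSpace 𝕜 f) := by
    rw [UniformSpace.Completion.coe_sub, UniformSpace.Completion.coe_sub]
    abel
  rw [e]
  have t1 := norm_add_le ((x (φ K) - z (φ K)) - (x (φ (K + 1)) - z (φ (K + 1))))
    ((z (φ K) - z (φ (K + 1)) - tail N (z (φ K) - z (φ (K + 1))) : C00 𝕜 f) : XSpace 𝕜 f)
  have t2 := norm_sub_le (x (φ K) - z (φ K)) (x (φ (K + 1)) - z (φ (K + 1)))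
  have t3 := hz (φ K)
  have t4 := hz (φ (K + 1))
  linarith

lemma exists_bound (x : C00 𝕜 f) : ∃ N, ∀ i, N ≤ i → coord x i = 0 := by
  classical
  refine ⟨(supp x).sup id + 1, fun i hi => ?_⟩
  apply coord_eq_zero
  intro h
  have := Finset.le_sup (f := id) h
  simp only [id] at this
  omega

/-- The general obstruction. -/
theorem general {Z : Type*} [NormedAddCommGroup Z] [NormedSpace 𝕜 Z] (a b : Z) (xa xb : ℕ → Z)
    (ha : ‖a‖ ≤ 1) (hb : ‖b‖ ≤ 1) (hxa : ∀ n, ‖xa n‖ ≤ 1) (hxb : ∀ n, ‖xb n‖ ≤ 1)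
    (hda : ∀ n m, n < m → ‖xa n - xa m‖ ≤ 1) (hdb : ∀ n m, n < m → ‖xb n - xb m‖ ≤ 1)
    (h1 : ∀ n m, n < m → 2 ≤ ‖a + (xa n - xa m)‖) (h2 : ∀ n m, n < m → 2 ≤ ‖b + (xb n - xb m)‖)
    (h3 : ∀ n m, n < m → ‖a + (xb n - xb m)‖ ≤ 1) (h4 : ∀ n m, n < m → ‖b + (xa n - xa m)‖ ≤ 1)
    (T : Z →ₗ[𝕜] XSpace 𝕜 f) {D : ℝ} (hT1 : ∀ z, ‖z‖ ≤ ‖T z‖) (hT2 : ∀ z, ‖T z‖ ≤ D * ‖z‖) :
    4 / 3 ≤ D := by
  by_contra hD
  have hD : D < 4 / 3 := not_le.mp hD
  have hD0 : 0 ≤ D := by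
    have e1 := h1 0 1 (by norm_num)
    have e2 := (norm_nonneg (T (a + (xa 0 - xa 1)))).trans (hT2 (a + (xa 0 - xa 1)))
    by_contra hneg
    have hneg : D < 0 := not_le.mp hneg
    nlinarith
  have hT3 : ∀ z, ‖z‖ ≤ 1 → ‖T z‖ ≤ D := by
    intro z hz
    calc ‖T z‖ ≤ D * ‖z‖ := hT2 z
      _ ≤ D * 1 := mul_le_mul_of_nonneg_left hz hD0
      _ = D := mul_one D
  set δ : ℝ := (4 - 3 * D) / 24 with hδ
  have hδ0 : 0 < δ := by rw [hδ]; linarith
  obtain ⟨A₁, hA₁⟩ := exists_approx (T a) hδ0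
  obtain ⟨B₁, hB₁⟩ := exists_approx (T b) hδ0
  obtain ⟨NA, hNA⟩ := exists_bound A₁
  obtain ⟨NB, hNB⟩ := exists_bound B₁
  set N := max NA NB with hN
  obtain ⟨n, m, hnm, A₂, hA₂, hA₂'⟩ := small_head (x := fun n => T (xa n))
    (fun n => hT3 _ (hxa n)) N hδ0
  obtain ⟨k, l, hkl, B₂, hB₂, hB₂'⟩ := small_head (x := fun n => T (xb n))
    (fun n => hT3 _ (hxb n)) N hδ0
  simp only [← map_sub] at hA₂' hB₂'
  -- comparison of norms
  have cmp : ∀ (u v : Z) (P Q : C00 𝕜 f), ‖T u - P‖ < δ → ‖T v - Q‖ < δ →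
      |‖T (u + v)‖ - ‖P + Q‖| < 2 * δ := by
    intro u v P Q hP hQ
    rw [← UniformSpace.Completion.norm_coe (P + Q)]
    refine (abs_norm_sub_norm_le _ _).trans_lt ?_
    have e : T (u + v) - ((P + Q : C00 𝕜 f) : XSpace 𝕜 f) = (T u - P) + (T v - Q) := by
      rw [map_add, UniformSpace.Completion.coe_add]; abel
    rw [e]
    have := norm_add_le (T u - P) (T v - Q)
    linarith
  have cmp1 : ∀ (u : Z) (P : C00 𝕜 f), ‖T u - P‖ < δ → ‖u‖ ≤ 1 → ‖P‖ ≤ D + 2 * δ := by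
    intro u P hP hu
    rw [← UniformSpace.Completion.norm_coe P]
    have e : ((P : C00 𝕜 f) : XSpace 𝕜 f) = T u - (T u - P) := by abel
    rw [e]
    have := norm_sub_le (T u) (T u - P)
    have := hT3 u hu
    linarith
  have c1 := cmp _ _ _ _ hA₁ hA₂'
  have c2 := cmp _ _ _ _ hB₁ hB₂'
  have c3 := cmp _ _ _ _ hA₁ hB₂'
  have c4 := cmp _ _ _ _ hB₁ hA₂'
  rw [abs_lt] at c1 c2 c3 c4
  have d1 := (h1 n m hnm).trans (hT1 _)
  have d2 := (h2 k l hkl).trans (hT1 _)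
  have d3 := hT3 _ (h3 k l hkl)
  have d4 := hT3 _ (h4 n m hnm)
  have key := two_level (N := N) (A₁ := A₁) (B₁ := B₁) (A₂ := A₂) (B₂ := B₂)
    (fun i hi => hNA i ((le_max_left _ _).trans hi))
    (fun i hi => hNB i ((le_max_right _ _).trans hi)) hA₂ hB₂
    (r := 2 - 2 * δ) (D := D + 2 * δ) (by linarith) (by linarith) (by linarith) (by linarith)
    (cmp1 _ _ hA₁ ha) (cmp1 _ _ hB₁ hb) (cmp1 _ _ hA₂' (hda n m hnm))
    (cmp1 _ _ hB₂' (hdb k l hkl))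
  have : 4 - 3 * D = 24 * δ := by rw [hδ]; ring
  linarith

end proof

section spaces

/-- unit vectors of `ℓ₁` -/
noncomputable def e1 (n : ℕ) : lp (fun _ : ℕ => 𝕜) 1 := lp.single 1 n (1 : 𝕜)

lemma norm_e1 (n : ℕ) : ‖(e1 n : lp (fun _ : ℕ => 𝕜) 1)‖ = 1 := by
  rw [e1, lp.norm_single (by norm_num)]
  exact norm_one

lemma e1_apply (n i : ℕ) : (e1 n : lp (fun _ : ℕ => 𝕜) 1) i = if i = n then 1 else 0 := by
  rw [e1, lp.single_apply, Pi.single_apply]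

lemma sum_le_norm_l1 (x : lp (fun _ : ℕ => 𝕜) 1) (s : Finset ℕ) : ∑ i ∈ s, ‖x i‖ ≤ ‖x‖ := by
  have := lp.sum_rpow_le_norm_rpow (p := 1) (by norm_num) x s
  simpa using this

lemma norm_half : ‖((1 : 𝕜) / 2)‖ = 1 / 2 := by
  rw [norm_div, norm_one, RCLike.norm_ofNat]

/-- unit vectors of `c₀` -/
noncomputable def e0 (n : ℕ) : C₀(ℕ, 𝕜) where
  toFun i := if i = n then 1 else 0
  continuous_toFun := continuous_of_discreteTopology
  zero_at_infty' := by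
    rw [Filter.cocompact_eq_cofinite]
    apply tendsto_const_nhds.congr'
    filter_upwards [(Set.finite_singleton n).compl_mem_cofinite] with i hi
    have : i ≠ n := hi
    simp [this]

lemma e0_apply (n i : ℕ) : (e0 n : C₀(ℕ, 𝕜)) i = if i = n then 1 else 0 := rfl

lemma norm_c0_le {x : C₀(ℕ, 𝕜)} {r : ℝ} (hr : 0 ≤ r) (h : ∀ i, ‖x i‖ ≤ r) : ‖x‖ ≤ r := by
  rw [← ZeroAtInftyContinuousMap.norm_toBCF_eq_norm]
  exact (BoundedContinuousFunction.norm_le hr).mpr h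

lemma coord_le_norm_c0 (x : C₀(ℕ, 𝕜)) (i : ℕ) : ‖x i‖ ≤ ‖x‖ := by
  rw [← ZeroAtInftyContinuousMap.norm_toBCF_eq_norm]
  exact x.toBCF.norm_coe_le_norm i

end spaces

/-- A linear map from `Z` into `X_f` which is an isomorphic embedding of distortion at most `D`. -/
def Distorts (𝕜 : Type) [RCLike 𝕜] (f : ℕ → ℚ) (Z : Type) [NormedAddCommGroup Z] [NormedSpace 𝕜 Z]
    (D : ℝ) : Prop :=
  ∃ T : Z →ₗ[𝕜] XSpace 𝕜 f, ∀ z, ‖z‖ ≤ ‖T z‖ ∧ ‖T z‖ ≤ D * ‖z‖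

theorem l1_case (f : ℕ → ℚ) (D : ℝ)
    (h : Distorts 𝕜 f (lp (fun _ : ℕ => 𝕜) 1 × lp (fun _ : ℕ => 𝕜) 1) D) : 4 / 3 ≤ D := by
  obtain ⟨T, hT⟩ := h
  let E : ℕ → lp (fun _ : ℕ => 𝕜) 1 := e1
  let H : ℕ → lp (fun _ : ℕ => 𝕜) 1 := fun n => ((1 : 𝕜) / 2) • e1 (n + 1)
  have hE0 : ‖E 0‖ = 1 := norm_e1 0
  have hH : ∀ n, ‖H n‖ = 1 / 2 := fun n => by
    change ‖((1 : 𝕜) / 2) • e1 (n + 1)‖ = 1 / 2
    rw [norm_smul, norm_e1, norm_half, mul_one]
  have hHH : ∀ n m, ‖H n - H m‖ ≤ 1 := fun n m => by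
    have := norm_sub_le (H n) (H m)
    rw [hH, hH] at this
    linarith
  have hlow : ∀ n m, n < m → 2 ≤ ‖E 0 + (H n - H m)‖ := by
    intro n m hnm
    have h1 := sum_le_norm_l1 (E 0 + (H n - H m)) ({0, n + 1, m + 1} : Finset ℕ)
    rw [Finset.sum_insert (by simp), Finset.sum_insert (by simp; omega), Finset.sum_singleton] at h1
    have ev : ∀ i, (E 0 + (H n - H m)) i = (if i = 0 then 1 else 0) +
        ((1 / 2) * (if i = n + 1 then 1 else 0) - (1 / 2) * (if i = m + 1 then 1 else 0)) := by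
      intro i
      rw [← e1_apply, ← e1_apply, ← e1_apply]
      rfl
    rw [ev, ev, ev] at h1
    have a1 : m + 1 ≠ n + 1 := by omega
    have a2 : n + 1 ≠ m + 1 := by omega
    simp only [if_true, if_neg (Nat.succ_ne_zero n), if_neg (Nat.succ_ne_zero m),
      if_neg (Nat.succ_ne_zero n).symm, if_neg (Nat.succ_ne_zero m).symm, if_neg a1, if_neg a2,
      mul_zero, mul_one, sub_zero, zero_sub, add_zero, zero_add, norm_neg, norm_one,
      norm_half] at h1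
    linarith
  refine general (f := f) (Z := lp (fun _ : ℕ => 𝕜) 1 × lp (fun _ : ℕ => 𝕜) 1)
    (E 0, 0) (0, E 0) (fun n => (H n, 0)) (fun n => (0, H n)) ?_ ?_ ?_ ?_ ?_ ?_ ?_ ?_ ?_ ?_ T
    (fun z => (hT z).1) (fun z => (hT z).2)
  · rw [Prod.norm_def]; simp [hE0]
  · rw [Prod.norm_def]; simp [hE0]
  · intro n; rw [Prod.norm_def]; simp [hH]; norm_num
  · intro n; rw [Prod.norm_def]; simp [hH]; norm_num
  · intro n m _; rw [Prod.norm_def]; simp [hHH]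
  · intro n m _; rw [Prod.norm_def]; simp [hHH]
  · intro n m hnm
    rw [Prod.norm_def]
    refine le_trans ?_ (le_max_left _ _)
    exact hlow n m hnm
  · intro n m hnm
    rw [Prod.norm_def]
    refine le_trans ?_ (le_max_right _ _)
    exact hlow n m hnm
  · intro n m hnm
    rw [Prod.norm_def]
    apply max_le
    · simp [hE0]
    · simpa using hHH n m
  · intro n m hnm
    rw [Prod.norm_def]
    apply max_le
    · simpa using hHH n m
    · simp [hE0]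

theorem c0_case (f : ℕ → ℚ) (D : ℝ)
    (h : Distorts 𝕜 f (WithLp 1 (C₀(ℕ, 𝕜) × C₀(ℕ, 𝕜))) D) : 4 / 3 ≤ D := by
  obtain ⟨T, hT⟩ := h
  have hE : ∀ n, ‖(e0 n : C₀(ℕ, 𝕜))‖ = 1 := by
    intro n
    apply le_antisymm
    · apply norm_c0_le zero_le_one
      intro i
      rw [e0_apply]
      split_ifs <;> simp
    · have := coord_le_norm_c0 (e0 n : C₀(ℕ, 𝕜)) n
      rw [e0_apply, if_pos rfl, norm_one] at this
      exact this
  have hd : ∀ n m, n < m → ‖(e0 (n + 1) - e0 (m + 1) : C₀(ℕ, 𝕜))‖ ≤ 1 := by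
    intro n m hnm
    apply norm_c0_le zero_le_one
    intro i
    change ‖(e0 (n + 1) : C₀(ℕ, 𝕜)) i - (e0 (m + 1) : C₀(ℕ, 𝕜)) i‖ ≤ 1
    rw [e0_apply, e0_apply]
    by_cases h1 : i = n + 1
    · rw [if_pos h1, if_neg (by omega)]; simp
    · rw [if_neg h1]
      split_ifs <;> simp
  have hd' : ∀ n m, n < m → 1 ≤ ‖(e0 (n + 1) - e0 (m + 1) : C₀(ℕ, 𝕜))‖ := by
    intro n m hnm
    have := coord_le_norm_c0 (e0 (n + 1) - e0 (m + 1) : C₀(ℕ, 𝕜)) (n + 1)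
    change ‖(e0 (n + 1) : C₀(ℕ, 𝕜)) (n + 1) - (e0 (m + 1) : C₀(ℕ, 𝕜)) (n + 1)‖ ≤ _ at this
    rw [e0_apply, e0_apply, if_pos rfl, if_neg (by omega), sub_zero, norm_one] at this
    exact this
  have hs : ∀ n m, n < m → ‖(e0 0 + (e0 (n + 1) - e0 (m + 1)) : C₀(ℕ, 𝕜))‖ ≤ 1 := by
    intro n m hnm
    apply norm_c0_le zero_le_one
    intro i
    change ‖(e0 0 : C₀(ℕ, 𝕜)) i + ((e0 (n + 1) : C₀(ℕ, 𝕜)) i - (e0 (m + 1) : C₀(ℕ, 𝕜)) i)‖ ≤ 1
    rw [e0_apply, e0_apply, e0_apply]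
    by_cases h0 : i = 0
    · rw [if_pos h0, if_neg (by omega), if_neg (by omega)]; simp
    · by_cases h1 : i = n + 1
      · rw [if_neg h0, if_pos h1, if_neg (by omega)]; simp
      · rw [if_neg h0, if_neg h1]
        split_ifs <;> simp
  have pn : ∀ a b c d e g : C₀(ℕ, 𝕜), ‖WithLp.toLp 1 (a, b) + (WithLp.toLp 1 (c, d) -
      WithLp.toLp 1 (e, g))‖ = ‖a + (c - e)‖ + ‖b + (d - g)‖ := by
    intro a b c d e g
    rw [WithLp.prod_norm_eq_of_L1]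
    rfl
  refine general (f := f) (Z := WithLp 1 (C₀(ℕ, 𝕜) × C₀(ℕ, 𝕜)))
    (WithLp.toLp 1 (e0 0, 0)) (WithLp.toLp 1 (0, e0 0))
    (fun n => WithLp.toLp 1 (0, e0 (n + 1))) (fun n => WithLp.toLp 1 (e0 (n + 1), 0))
    ?_ ?_ ?_ ?_ ?_ ?_ ?_ ?_ ?_ ?_ T (fun z => (hT z).1) (fun z => (hT z).2)
  · rw [WithLp.prod_norm_eq_of_L1]; simp [hE]
  · rw [WithLp.prod_norm_eq_of_L1]; simp [hE]
  · intro n; rw [WithLp.prod_norm_eq_of_L1]; simp [hE]
  · intro n; rw [WithLp.prod_norm_eq_of_L1]; simp [hE]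
  · intro n m hnm; rw [WithLp.prod_norm_eq_of_L1]; simpa using hd n m hnm
  · intro n m hnm; rw [WithLp.prod_norm_eq_of_L1]; simpa using hd n m hnm
  · intro n m hnm
    have h1 := hd' n m hnm
    rw [pn, sub_zero, add_zero, zero_add, hE]
    linarith
  · intro n m hnm
    have h1 := hd' n m hnm
    rw [pn, sub_zero, add_zero, zero_add, hE]
    linarith
  · intro n m hnm
    rw [pn, sub_zero, add_zero, norm_zero, add_zero]
    exact hs n m hnm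
  · intro n m hnm
    rw [pn, sub_zero, add_zero, norm_zero, zero_add]
    exact hs n m hnm

/-- The space `ℓ₁`. -/
def EllOne (𝕜 : Type) [RCLike 𝕜] : Type := lp (fun _ : ℕ => 𝕜) 1

noncomputable instance : NormedAddCommGroup (EllOne 𝕜) :=
  @lp.normedAddCommGroup ℕ (fun _ => 𝕜) 1 _ _

noncomputable instance : NormedSpace 𝕜 (EllOne 𝕜) :=
  @lp.instNormedSpace 𝕜 ℕ (fun _ => 𝕜) 1 _ _ _ _

/-- The space `c₀`. -/
def CZero (𝕜 : Type) [RCLike 𝕜] : Type := C₀(ℕ, 𝕜)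

noncomputable instance : NormedAddCommGroup (CZero 𝕜) :=
  @ZeroAtInftyContinuousMap.instNormedAddCommGroup ℕ 𝕜 _ _

noncomputable instance : NormedSpace 𝕜 (CZero 𝕜) :=
  @ZeroAtInftyContinuousMap.instNormedSpace ℕ 𝕜 _ _ 𝕜 _ _

/-- `ℓ₁ ⊕₀ ℓ₁`, with the norm `max (‖x‖₁, ‖y‖₁)`. -/
abbrev L1L1 (𝕜 : Type) [RCLike 𝕜] : Type := EllOne 𝕜 × EllOne 𝕜

/-- `c₀ ⊕₁ c₀`, with the norm `‖x‖_∞ + ‖y‖_∞`. -/
abbrev C0C0 (𝕜 : Type) [RCLike 𝕜] : Type := WithLp 1 (CZero 𝕜 × CZero 𝕜)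

/-- `X_f` contains an isometric copy of `Z`: there is a linear isometric embedding `Z → X_f`. -/
def ContainsCopy (𝕜 : Type) [RCLike 𝕜] (f : ℕ → ℚ) (Z : Type) [NormedAddCommGroup Z]
    [NormedSpace 𝕜 Z] : Prop :=
  ∃ T : Z →ₗ[𝕜] XSpace 𝕜 f, ∀ z, ‖T z‖ = ‖z‖

/-- **Q1 and Q2 of MP_adcce9_an have a negative answer for every `f`** (in particular for every
bijection `f : ℕ → ℚ`), over the real and over the complex scalars: the Sierpiński space `X_f`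
contains no isometric copy of `ℓ₁ ⊕₀ ℓ₁` and no isometric copy of `c₀ ⊕₁ c₀`. Moreover every
linear embedding of either space into `X_f` has distortion at least `4/3`. -/
theorem result (𝕜 : Type) [RCLike 𝕜] (f : ℕ → ℚ) :
    ¬ ContainsCopy 𝕜 f (L1L1 𝕜) ∧ ¬ ContainsCopy 𝕜 f (C0C0 𝕜) ∧
    (∀ D, Distorts 𝕜 f (L1L1 𝕜) D → 4 / 3 ≤ D) ∧ (∀ D, Distorts 𝕜 f (C0C0 𝕜) D → 4 / 3 ≤ D) := by
  have h1 : ∀ D, Distorts 𝕜 f (L1L1 𝕜) D → 4 / 3 ≤ D := l1_case f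
  have h2 : ∀ D, Distorts 𝕜 f (C0C0 𝕜) D → 4 / 3 ≤ D := c0_case f
  refine ⟨?_, ?_, h1, h2⟩
  · rintro ⟨T, hT⟩
    have := h1 1 ⟨T, fun z => ⟨(hT z).ge, by rw [one_mul]; exact (hT z).le⟩⟩
    norm_num at this
  · rintro ⟨T, hT⟩
    have := h2 1 ⟨T, fun z => ⟨(hT z).ge, by rw [one_mul]; exact (hT z).le⟩⟩
    norm_num at this

end Pool.Agent.Results.MP_adcce9_an.NoIsometricCopies
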